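import Mathlib
import Pool.Agent.H69.SbDefs2
import Pool.Agent.H69.Sb15

set_option autoImplicit false

namespace Pool.Agent.Results.MP_164614_an.Yes

open Pool.Agent.H69.Sc

/-- Every fiber of the spectrum of `A_u(B_{ℓ_p})`, `1 ≤ p < ∞`, contains a strong boundary point:
over the closed unit ball of the bidual for `p = 1`, and over the closed unit ball of
`ℓ_p = ℓ_p''` for `1 < p < ∞`. -/
theorem result : AllFibers (Lp 1) ∧ ∀ (p : ENNReal) [Fact (1 ≤ p)], 1 < p → p ≠ ⊤ →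
    ∀ z : Lp p, ‖z‖ ≤ 1 → ∃ φ ∈ fiber (fun l : Lp p →L[ℂ] ℂ => l z), StrongBdry φ := by
  refine ⟨fun z hz => Pool.Agent.H69.Sb.main_one z hz, fun p _ h1 h2 z hz => ?_⟩
  have hp : 1 < p.toReal := by simpa using (ENNReal.toReal_lt_toReal ENNReal.one_ne_top h2).2 h1
  rcases hz.lt_or_eq with h | h
  · exact Pool.Agent.H69.Sb.main hp z h
  · exact Pool.Agent.H69.Sb.main0 hp z h

end Pool.Agent.Results.MP_164614_an.Yes
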